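import Pool.Agent.H13.EDM.Targets

/-!
# The intersection number of linear systems is a maximum; a limit of numbers
-/

open Filter Topology

namespace Pool.Agent.H91.EDM

open Pool.Agent.H13.EDM in
theorem pf_MDM (hBND : T_BND) : T_MDM := by
  intro n a k K _ _ _ _ φ htr hfg
  obtain ⟨Y, hY⟩ := hBND n a k k K φ htr hfg
  have hb : BddAbove {Y | ∃ s : Fin n → Fin a → k,
      Y = Pool.Agent.H8.TD.dg k (Set.range fun i => Pool.Agent.H8.TD.lc (s i) (φ i))} := by
    refine ⟨Y, ?_⟩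
    rintro _ ⟨s, rfl⟩
    exact hY s
  refine ⟨fun s => ?_, ?_⟩
  · exact le_csSup hb ⟨s, rfl⟩
  · have hm := Nat.sSup_mem (s := {Y | ∃ s : Fin n → Fin a → k,
      Y = Pool.Agent.H8.TD.dg k (Set.range fun i => Pool.Agent.H8.TD.lc (s i) (φ i))})
      ⟨_, ⟨fun _ _ => 0, rfl⟩⟩ hb
    obtain ⟨s, hs⟩ := hm
    exact ⟨s, hs.symm⟩

theorem pf_LIM : Pool.Agent.H13.EDM.T_LIM := by
  intro e P Q D Y c c' H
  rcases Nat.eq_zero_or_pos Q with hQ | hQ
  · subst hQ; simp
  rcases Nat.eq_zero_or_pos P with hP | hP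
  · subst hP
    have h1 := H 0 (c' + 1) (by
      simp only [zero_mul, mul_zero, zero_add, Nat.choose_self, mul_one]
      exact hQ)
    rw [zero_mul, add_zero] at h1
    have hD : D = 0 := by
      rcases Nat.eq_zero_or_pos D with h | h
      · exact h
      · exfalso
        have : c' + 1 ≤ (c' + 1) * D := Nat.le_mul_of_pos_right _ h
        omega
    subst hD
    simp
  -- the inequality for each `l ≥ 1`
  have key : ∀ l : ℕ, 1 ≤ l → D * Q * (l + 1) ^ (e + 1) ≤
      (e + 1).factorial * ((c' + l * Y + D) * (P * (l + c) ^ e)) := by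
    intro l hl
    have hB : 0 < P * (l + c) ^ e := Nat.mul_pos hP (pow_pos (by omega) e)
    have hT : 0 < Q * (l + (e + 1)).choose (e + 1) :=
      Nat.mul_pos hQ (Nat.choose_pos (by omega))
    set B := P * (l + c) ^ e with hBdef
    set T := Q * (l + (e + 1)).choose (e + 1) with hTdef
    have h1 : (T - 1) / B * B < T := by
      have := Nat.div_mul_le_self (T - 1) B
      omega
    have h2 := H l ((T - 1) / B) h1
    have h3 : T ≤ ((T - 1) / B + 1) * B := by
      have := Nat.lt_div_mul_add (a := T - 1) hB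
      have h4 : ((T - 1) / B + 1) * B = (T - 1) / B * B + B := by ring
      omega
    have h5 : D * T ≤ (c' + l * Y + D) * B := by
      calc D * T ≤ D * (((T - 1) / B + 1) * B) := Nat.mul_le_mul_left _ h3
        _ = ((T - 1) / B * D + D) * B := by ring
        _ ≤ _ := Nat.mul_le_mul_right _ (by omega)
    have h6 : (l + 1) ^ (e + 1) ≤ (e + 1).factorial * (l + (e + 1)).choose (e + 1) := by
      rw [← Nat.ascFactorial_eq_factorial_mul_choose]
      exact Nat.pow_succ_le_ascFactorial (l + 1) (e + 1)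
    calc D * Q * (l + 1) ^ (e + 1)
        ≤ D * Q * ((e + 1).factorial * (l + (e + 1)).choose (e + 1)) := Nat.mul_le_mul_left _ h6
      _ = (e + 1).factorial * (D * T) := by rw [hTdef]; ring
      _ ≤ _ := Nat.mul_le_mul_left _ h5
  have t0 : Tendsto (fun l : ℕ => 1 / ((l : ℝ) + 1)) atTop (𝓝 0) :=
    tendsto_one_div_add_atTop_nhds_zero_nat
  have t1 : Tendsto (fun l : ℕ => (Y : ℝ) + ((c' : ℝ) + D - Y) * (1 / ((l : ℝ) + 1))) atTop
      (𝓝 (Y + ((c' : ℝ) + D - Y) * 0)) := (t0.const_mul _).const_add _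
  have t2 : Tendsto (fun l : ℕ => (1 + ((c : ℝ) - 1) * (1 / ((l : ℝ) + 1))) ^ e) atTop
      (𝓝 ((1 + ((c : ℝ) - 1) * 0) ^ e)) := ((t0.const_mul _).const_add _).pow e
  have t3 := ((t1.mul t2).const_mul (P : ℝ)).const_mul ((e + 1).factorial : ℝ)
  have hfin : (D : ℝ) * Q ≤ (e + 1).factorial * (P * ((Y + ((c' : ℝ) + D - Y) * 0) *
      (1 + ((c : ℝ) - 1) * 0) ^ e)) := by
    refine ge_of_tendsto t3 ?_
    filter_upwards [eventually_ge_atTop 1] with l hl
    have hk := key l hl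
    have hk' : (D : ℝ) * Q * ((l : ℝ) + 1) ^ (e + 1) ≤
        (e + 1).factorial * ((c' + l * Y + D) * (P * ((l : ℝ) + c) ^ e)) := by
      exact_mod_cast hk
    have hp : (0 : ℝ) < (l : ℝ) + 1 := by positivity
    have hpe : (0 : ℝ) < ((l : ℝ) + 1) ^ (e + 1) := by positivity
    rw [← le_div_iff₀ hpe] at hk'
    refine hk'.trans (le_of_eq ?_)
    have e1 : (Y : ℝ) + ((c' : ℝ) + D - Y) * (1 / ((l : ℝ) + 1)) =
        (c' + l * Y + D) / ((l : ℝ) + 1) := by
      field_simp
      ring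
    have e2 : (1 : ℝ) + ((c : ℝ) - 1) * (1 / ((l : ℝ) + 1)) = ((l : ℝ) + c) / ((l : ℝ) + 1) := by
      field_simp
      ring
    rw [e1, e2, div_pow, pow_succ]
    field_simp
  have : (D : ℝ) * Q ≤ (e + 1).factorial * (P * Y) := by
    simpa using hfin
  exact_mod_cast this

end Pool.Agent.H91.EDM
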