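import Pool.Agent.H13.EDM.Targets
import Mathlib.Analysis.Subadditive

/-!
# Submultiplicative sequences
-/

open Filter Topology

namespace Pool.Agent.H91.EDM

theorem pf_NU1 : Pool.Agent.H13.EDM.T_NU1 := by
  intro u C η hC hη hu hsub hlow
  have hpos : ∀ m, 0 < C * u m := fun m => mul_pos hC (hu m)
  have hsubadd : Subadditive (fun m => Real.log (C * u m)) := by
    intro m n
    show Real.log (C * u (m + n)) ≤ Real.log (C * u m) + Real.log (C * u n)
    rw [← Real.log_mul (hpos m).ne' (hpos n).ne']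
    apply Real.log_le_log (hpos _)
    have h1 := mul_le_mul_of_nonneg_left (hsub m n) hC.le
    calc C * u (m + n) ≤ C * (C * (u m * u n)) := h1
      _ = C * u m * (C * u n) := by ring
  have hlog : ∀ m : ℕ, (m : ℝ) * Real.log η ≤ Real.log (C * u m) := by
    intro m
    have := Real.log_le_log (pow_pos hη m) (hlow m)
    rwa [Real.log_pow] at this
  have hbdd : BddBelow (Set.range fun n : ℕ => Real.log (C * u n) / n) := by
    refine ⟨min (Real.log η) 0, ?_⟩
    rintro _ ⟨n, rfl⟩
    rcases Nat.eq_zero_or_pos n with h0 | h0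
    · subst h0; simp
    · have hn : (0 : ℝ) < n := by exact_mod_cast h0
      refine (min_le_left _ _).trans ?_
      show Real.log η ≤ Real.log (C * u n) / n
      rw [le_div_iff₀ hn]
      linarith [hlog n]
  have hlim := hsubadd.tendsto_lim hbdd
  have hle : ∀ n : ℕ, n ≠ 0 → hsubadd.lim ≤ Real.log (C * u n) / n := fun n hn =>
    hsubadd.lim_le_div hbdd hn
  generalize hsubadd.lim = L at hlim hle
  refine ⟨Real.exp L, Real.exp_pos L, ?_, ?_⟩
  · intro m
    rcases Nat.eq_zero_or_pos m with h0 | h0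
    · subst h0
      simpa using hlow 0
    · have hm : (0 : ℝ) < m := by exact_mod_cast h0
      have h1 := hle m h0.ne'
      rw [le_div_iff₀ hm] at h1
      rw [← Real.exp_nat_mul, ← Real.exp_log (hpos m)]
      apply Real.exp_le_exp.mpr
      linarith
  · intro ε hε
    have hδ : 0 < Real.log (1 + ε) := Real.log_pos (by linarith)
    have e1 : ∀ᶠ m : ℕ in atTop, Real.log (C * u m) / m < L + Real.log (1 + ε) / 2 :=
      hlim.eventually (gt_mem_nhds (by linarith))
    have t2 : Tendsto (fun m : ℕ => -Real.log C / (m : ℝ)) atTop (𝓝 0) :=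
      tendsto_const_nhds.div_atTop tendsto_natCast_atTop_atTop
    have e2 : ∀ᶠ m : ℕ in atTop, -Real.log C / (m : ℝ) < Real.log (1 + ε) / 2 :=
      t2.eventually (gt_mem_nhds (by linarith))
    obtain ⟨m₀, hm₀⟩ := eventually_atTop.mp (e1.and (e2.and (eventually_ge_atTop 1)))
    refine ⟨m₀, fun m hm => ?_⟩
    obtain ⟨h1, h2, h3⟩ := hm₀ m hm
    have hmp : (0 : ℝ) < m := by exact_mod_cast h3
    rw [div_lt_iff₀ hmp] at h1 h2
    have h4 : Real.log (C * u m) = Real.log C + Real.log (u m) :=
      Real.log_mul hC.ne' (hu m).ne'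
    have h5 : Real.log (u m) ≤ m * (L + Real.log (1 + ε)) := by nlinarith
    have h6 : Real.exp L * (1 + ε) = Real.exp (L + Real.log (1 + ε)) := by
      rw [Real.exp_add, Real.exp_log (by linarith)]
    rw [h6, ← Real.exp_nat_mul, ← Real.exp_log (hu m)]
    apply Real.exp_le_exp.mpr
    exact h5

end Pool.Agent.H91.EDM
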