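import Pool.Agent.H13.EDM.Targets

/-!
# Log-concave sequences: the first term is the largest, the second term is the largest
-/

namespace Pool.Agent.H91.EDM

/-- two steps of a log-concave sequence -/
theorem two_step (N : ℕ) (C : ℝ) (x : ℕ → ℝ) (hC : 1 ≤ C) (hx : ∀ j ≤ N, 0 < x j)
    (hlc : ∀ j, j + 2 ≤ N → x j * x (j + 2) ≤ C * x (j + 1) ^ 2) (j : ℕ) (hj : j + 3 ≤ N) :
    x (j + 3) * x j ≤ C ^ 2 * (x (j + 1) * x (j + 2)) := by
  have h1 := hlc j (by omega)
  have h2 := hlc (j + 1) (by omega)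
  have p0 := hx j (by omega)
  have p1 := hx (j + 1) (by omega)
  have p2 := hx (j + 2) (by omega)
  have p3 := hx (j + 3) (by omega)
  have e2 : j + 1 + 2 = j + 3 := by omega
  have e1 : j + 1 + 1 = j + 2 := by omega
  rw [e2, e1] at h2
  have h3 : (x j * x (j + 2)) * (x (j + 1) * x (j + 3)) ≤
      (C * x (j + 1) ^ 2) * (C * x (j + 2) ^ 2) :=
    mul_le_mul h1 h2 (by positivity) (by positivity)
  have h4 : (x (j + 1) * x (j + 2)) * (x (j + 3) * x j) ≤
      (x (j + 1) * x (j + 2)) * (C ^ 2 * (x (j + 1) * x (j + 2))) := by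
    calc _ = (x j * x (j + 2)) * (x (j + 1) * x (j + 3)) := by ring
      _ ≤ _ := h3
      _ = _ := by ring
  exact le_of_mul_le_mul_left h4 (by positivity)

/-- the ratio of two steps, from any place -/
theorem two_step_from (N : ℕ) (C : ℝ) (x : ℕ → ℝ) (hC : 1 ≤ C) (hx : ∀ j ≤ N, 0 < x j)
    (hlc : ∀ j, j + 2 ≤ N → x j * x (j + 2) ≤ C * x (j + 1) ^ 2) (i : ℕ) :
    ∀ j, i + j + 2 ≤ N → x (i + j + 2) * x i ≤ (C ^ 2) ^ j * (x (i + 2) * x (i + j)) := by
  intro j
  induction j with
  | zero =>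
    intro h
    simp
  | succ j ih =>
    intro h
    have h1 := ih (by omega)
    have h2 := two_step N C x hC hx hlc (i + j) (by omega)
    have pij := hx (i + j) (by omega)
    have pij1 := hx (i + j + 1) (by omega)
    have pij2 := hx (i + j + 2) (by omega)
    have pi0 := hx i (by omega)
    have pi2 := hx (i + 2) (by omega)
    have e1 : i + (j + 1) + 2 = i + j + 3 := by omega
    have e2 : i + (j + 1) = i + j + 1 := by omega
    rw [e1, e2]
    have h3 : x (i + j) * (x (i + j + 3) * x i) ≤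
        x (i + j) * ((C ^ 2) ^ (j + 1) * (x (i + 2) * x (i + j + 1))) := by
      calc x (i + j) * (x (i + j + 3) * x i) = (x (i + j + 3) * x (i + j)) * x i := by ring
        _ ≤ (C ^ 2 * (x (i + j + 1) * x (i + j + 2))) * x i :=
          mul_le_mul_of_nonneg_right h2 pi0.le
        _ = (C ^ 2 * x (i + j + 1)) * (x (i + j + 2) * x i) := by ring
        _ ≤ (C ^ 2 * x (i + j + 1)) * ((C ^ 2) ^ j * (x (i + 2) * x (i + j))) :=
          mul_le_mul_of_nonneg_left h1 (by positivity)
        _ = _ := by ring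
    exact le_of_mul_le_mul_left h3 pij

theorem pf_NU2 : Pool.Agent.H13.EDM.T_NU2 := by
  intro N C D hC hD hN
  have hC0 : 0 < C := by linarith
  refine ⟨(C ^ 2) ^ N / D + N * C * D, by positivity, ?_⟩
  intro x w l hx hx0 hlc hw hK hl
  have p2 := hx 2 (by omega)
  have p1 := hx 1 (by omega)
  have hq : (C ^ 2) ^ N / D * x 2 ≤ l := by
    have : 0 ≤ (N : ℝ) * C * D * x 2 := by positivity
    nlinarith
  have hC2 : 1 ≤ C ^ 2 := one_le_pow₀ hC
  have hA : ∀ j, j + 2 ≤ N → x (j + 2) ≤ l * x j := by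
    intro j hj
    have h := two_step_from N C x hC hx hlc 0 j (by omega)
    simp only [zero_add] at h
    rw [hx0] at h
    have pj := hx j (by omega)
    have h1 : (C ^ 2) ^ j ≤ (C ^ 2) ^ N := pow_le_pow_right₀ hC2 (by omega)
    have h2 : x (j + 2) * D ≤ (C ^ 2) ^ N * (x 2 * x j) :=
      h.trans (mul_le_mul_of_nonneg_right h1 (by positivity))
    have h3 : x (j + 2) ≤ (C ^ 2) ^ N / D * x 2 * x j := by
      rw [div_mul_eq_mul_div, div_mul_eq_mul_div, le_div_iff₀ hD]
      calc _ ≤ _ := h2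
        _ = _ := by ring
    exact h3.trans (mul_le_mul_of_nonneg_right hq pj.le)
  have hl0 : 0 < l := by linarith
  have hB : ∀ j, j < N → x j * x (j + 1) ≤ D * x 1 * l ^ j := by
    intro j
    induction j with
    | zero =>
      intro _
      simp [hx0]
    | succ j ih =>
      intro hj
      have h1 := ih (by omega)
      have h2 := hA j (by omega)
      have pj1 := hx (j + 1) (by omega)
      calc x (j + 1) * x (j + 1 + 1) ≤ x (j + 1) * (l * x j) :=
            mul_le_mul_of_nonneg_left h2 pj1.le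
        _ = l * (x j * x (j + 1)) := by ring
        _ ≤ l * (D * x 1 * l ^ j) := mul_le_mul_of_nonneg_left h1 hl0.le
        _ = D * x 1 * l ^ (j + 1) := by ring
  have hS : ∀ j ∈ Finset.range N, l ^ (N - 1 - j) * w j ≤ C * D * x 1 * l ^ (N - 1) := by
    intro j hj
    have hj' := Finset.mem_range.mp hj
    have h1 := hw j hj'
    have h2 := hB j hj'
    have h3 : w j ≤ C * (D * x 1 * l ^ j) := h1.trans (mul_le_mul_of_nonneg_left h2 hC0.le)
    calc l ^ (N - 1 - j) * w j ≤ l ^ (N - 1 - j) * (C * (D * x 1 * l ^ j)) :=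
          mul_le_mul_of_nonneg_left h3 (by positivity)
      _ = C * D * x 1 * (l ^ (N - 1 - j) * l ^ j) := by ring
      _ = C * D * x 1 * l ^ (N - 1) := by
          rw [← pow_add]
          congr 2
          omega
  calc _ ≤ ∑ j ∈ Finset.range N, C * D * x 1 * l ^ (N - 1) := Finset.sum_le_sum hS
    _ = N * C * D * (l ^ (N - 1) * x 1) := by
        rw [Finset.sum_const, Finset.card_range, nsmul_eq_mul]; ring
    _ ≤ _ := by
        apply mul_le_mul_of_nonneg_right _ (by positivity)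
        have : 0 ≤ (C ^ 2) ^ N / D := by positivity
        linarith

theorem pf_NU3 : Pool.Agent.H13.EDM.T_NU3 := by
  intro N C D hC hD hN
  have hC0 : 0 < C := by linarith
  have hNp : (0 : ℝ) < N := by exact_mod_cast (by omega : 0 < N)
  refine ⟨N * C * ((C ^ 2) ^ N) ^ N, by positivity, ?_⟩
  intro x w hx hx0 hlc hw h2 h3
  have p2 := hx 2 (by omega)
  have p1 := hx 1 (by omega)
  have p3 := hx 3 (by omega)
  have hC2 : 1 ≤ C ^ 2 := one_le_pow₀ hC
  have hC2N : 1 ≤ (C ^ 2) ^ N := one_le_pow₀ hC2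
  have hA : ∀ j, j + 3 ≤ N → x (j + 3) ≤ (C ^ 2) ^ N * x (j + 1) := by
    intro j hj
    have h := two_step_from N C x hC hx hlc 1 j (by omega)
    have e1 : 1 + j + 2 = j + 3 := by omega
    have e2 : 1 + j = j + 1 := by omega
    have e3 : 1 + 2 = 3 := rfl
    rw [e1, e2, e3] at h
    have pj := hx (j + 1) (by omega)
    have h1 : (C ^ 2) ^ j ≤ (C ^ 2) ^ N := pow_le_pow_right₀ hC2 (by omega)
    have h4 : x (j + 3) * x 1 ≤ ((C ^ 2) ^ N * x (j + 1)) * x 1 := by
      calc x (j + 3) * x 1 ≤ (C ^ 2) ^ j * (x 3 * x (j + 1)) := h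
        _ ≤ (C ^ 2) ^ N * (x 3 * x (j + 1)) := mul_le_mul_of_nonneg_right h1 (by positivity)
        _ ≤ (C ^ 2) ^ N * (x 1 * x (j + 1)) := by
            apply mul_le_mul_of_nonneg_left _ (by positivity)
            exact mul_le_mul_of_nonneg_right h3 pj.le
        _ = _ := by ring
    exact le_of_mul_le_mul_right h4 p1
  have hB : ∀ j, j < N → x j * x (j + 1) ≤ ((C ^ 2) ^ N) ^ j * (x 1 * x 2) := by
    intro j
    induction j with
    | zero =>
      intro _
      rw [hx0, pow_zero, one_mul, zero_add]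
      nlinarith
    | succ j ih =>
      intro hj
      rcases Nat.eq_zero_or_pos j with h0 | h0
      · subst h0
        have : 0 ≤ x 1 * x 2 := by positivity
        simp only [zero_add, pow_one]
        show x 1 * x (1 + 1) ≤ (C ^ 2) ^ N * (x 1 * x 2)
        have e : (1 + 1 : ℕ) = 2 := rfl
        rw [e]
        nlinarith
      · obtain ⟨i, rfl⟩ : ∃ i, j = i + 1 := ⟨j - 1, by omega⟩
        have h1 := ih (by omega)
        have h2 := hA i (by omega)
        have pj1 := hx (i + 1 + 1) (by omega)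
        have e : i + 1 + 1 + 1 = i + 3 := by omega
        calc x (i + 1 + 1) * x (i + 1 + 1 + 1) ≤ x (i + 1 + 1) * ((C ^ 2) ^ N * x (i + 1)) := by
              rw [e]; exact mul_le_mul_of_nonneg_left h2 pj1.le
          _ = (C ^ 2) ^ N * (x (i + 1) * x (i + 1 + 1)) := by ring
          _ ≤ (C ^ 2) ^ N * (((C ^ 2) ^ N) ^ (i + 1) * (x 1 * x 2)) :=
              mul_le_mul_of_nonneg_left h1 (by positivity)
          _ = ((C ^ 2) ^ N) ^ (i + 1 + 1) * (x 1 * x 2) := by
              rw [pow_succ ((C ^ 2) ^ N) (i + 1)]; ring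
  have hS : ∀ j ∈ Finset.range N, w j ≤ C * ((C ^ 2) ^ N) ^ N * (x 1 * x 2) := by
    intro j hj
    have hj' := Finset.mem_range.mp hj
    have h4 : ((C ^ 2) ^ N) ^ j ≤ ((C ^ 2) ^ N) ^ N := pow_le_pow_right₀ hC2N (by omega)
    calc w j ≤ C * (x j * x (j + 1)) := hw j hj'
      _ ≤ C * (((C ^ 2) ^ N) ^ j * (x 1 * x 2)) := mul_le_mul_of_nonneg_left (hB j hj') hC0.le
      _ ≤ C * (((C ^ 2) ^ N) ^ N * (x 1 * x 2)) := by
          apply mul_le_mul_of_nonneg_left _ hC0.le
          exact mul_le_mul_of_nonneg_right h4 (by positivity)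
      _ = _ := by ring
  calc _ ≤ ∑ j ∈ Finset.range N, C * ((C ^ 2) ^ N) ^ N * (x 1 * x 2) := Finset.sum_le_sum hS
    _ = _ := by
        rw [Finset.sum_const, Finset.card_range, nsmul_eq_mul]; ring

end Pool.Agent.H91.EDM
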